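import Pool.Agent.helper80.EN.Spec5

/-!
# Project eb: EPW (Cartesian powers)
-/

set_option autoImplicit false

namespace Pool.Agent.helper80.EN

open Subgroup

universe u

theorem EPW_icom {G H : Type u} [Group G] [Group H] (f : G →* H) (x y : G) (n : ℕ) :
    f (icom x y n) = icom (f x) (f y) n := by
  induction n with
  | zero => rfl
  | succ n ih =>
    change f (com (icom x y n) y) = com (icom (f x) (f y) n) (f y)
    rw [← ih]
    unfold com
    rw [map_mul, map_mul, map_mul, map_inv, map_inv]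

theorem EPW_surj {G H : Type u} [Group G] [Group H] (f : G →* H) (hf : Function.Surjective f)
    (a : G) (ha : LeftEngel a) : LeftEngel (f a) := by
  intro h
  obtain ⟨g, rfl⟩ := hf h
  obtain ⟨n, hn⟩ := ha g
  exact ⟨n, by rw [← EPW_icom, hn, map_one]⟩

theorem EPW_inj {G H : Type u} [Group G] [Group H] (f : G →* H) (hf : Function.Injective f)
    (a : G) (ha : LeftEngel (f a)) : LeftEngel a := by
  intro g
  obtain ⟨n, hn⟩ := ha (f g)
  refine ⟨n, hf ?_⟩
  rw [EPW_icom, hn, map_one]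

theorem EPW (hH : HPR_stmt.{u}) (hT : TRF_stmt.{u}) (hA : EBA_stmt.{u}) (hS : ESB_stmt.{u}) :
    EPW_stmt.{u} := by
  intro G _ I hQ hE B a ha
  let Bi : I → Subgroup G := fun i => B.map (Pi.evalMonoidHom (fun _ : I => G) i)
  let f : (i : I) → B →* Bi i := fun i =>
    { toFun := fun b => ⟨(b : I → G) i, ⟨b, b.2, rfl⟩⟩
      map_one' := rfl
      map_mul' := fun _ _ => rfl }
  have hf : ∀ i, Function.Surjective (f i) := by
    rintro i ⟨_, b, hb, rfl⟩
    exact ⟨⟨b, hb⟩, rfl⟩
  have hai : ∀ i, f i a ∈ HP (Bi i) := fun i => hE (Bi i) (f i a) (EPW_surj (f i) (hf i) a ha)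
  let M : Subgroup B := ⨅ i, (HP (Bi i)).comap (f i)
  have hMm : ∀ b, b ∈ M ↔ ∀ i, f i b ∈ HP (Bi i) := by
    intro b
    change b ∈ ⨅ i, (HP (Bi i)).comap (f i) ↔ _
    rw [Subgroup.mem_iInf]
    rfl
  have hM : M.Normal := by
    apply Subgroup.normal_iInf_normal
    intro i
    have := (hH (Bi i)).1
    exact Subgroup.Normal.comap this (f i)
  have hML : InL M := by
    have h1 := hQ I (fun i => (HP (Bi i)).map (Bi i).subtype) fun i =>
      (hT (Bi i)).2.1 G (Bi i).subtype (HP (Bi i)) (hH (Bi i)).2.1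
    let φ : M →* ((i : I) → (HP (Bi i)).map (Bi i).subtype) :=
      { toFun := fun m i => ⟨((m : B) : I → G) i, ⟨f i m, (hMm m).1 m.2 i, rfl⟩⟩
        map_one' := rfl
        map_mul' := fun _ _ => rfl }
    refine InL.sub φ ?_ h1
    intro x y hxy
    refine Subtype.ext (Subtype.ext (funext fun i => ?_))
    exact congrArg Subtype.val (congrFun hxy i)
  have haM : a ∈ M := (hMm a).2 hai
  have ha' : LeftEngel (⟨a, haM⟩ : M) := EPW_inj M.subtype (Subgroup.subtype_injective M) _ ha
  have ha2 : (⟨a, haM⟩ : M) ∈ HP M := hS.2.2 M (hA M hML) _ ha'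
  have hc : (HP M).Characteristic := (hH M).2.2.2
  have hn : ((HP M).map M.subtype).Normal := ConjAct.normal_of_characteristic_of_normal
  have hl : LocNilp ((HP M).map M.subtype) := (hT M).2.1 B M.subtype (HP M) (hH M).2.1
  exact (hH B).2.2.1 _ hn hl ⟨⟨a, haM⟩, ha2, rfl⟩

end Pool.Agent.helper80.EN
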